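import Pool.Agent.Q157.OM.Stm

/-!
Project OM (MP_d24be6_pr): cells.
-/

set_option autoImplicit false

namespace Pool.Agent.Q121.OM

open Finset Filter Topology Pool.Agent.Q157.OM

/-- the rank of `v` in `V` -/
def rho (V : Finset ℕ) (v : ℕ) : ℕ := (V.filter (· < v)).card

theorem rho_lt {V : Finset ℕ} {u v : ℕ} (hu : u ∈ V) (h : u < v) : rho V u < rho V v := by
  unfold rho
  apply Finset.card_lt_card
  rw [Finset.ssubset_iff_of_subset]
  · refine ⟨u, Finset.mem_filter.2 ⟨hu, h⟩, fun h' => ?_⟩
    exact lt_irrefl _ (Finset.mem_filter.1 h').2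
  · intro w hw
    rw [Finset.mem_filter] at hw ⊢
    exact ⟨hw.1, hw.2.trans h⟩

theorem rho_lt_card {V : Finset ℕ} {u : ℕ} (hu : u ∈ V) : rho V u < V.card := by
  unfold rho
  apply Finset.card_lt_card
  rw [Finset.ssubset_iff_of_subset (Finset.filter_subset _ _)]
  refine ⟨u, hu, fun h' => ?_⟩
  exact lt_irrefl _ (Finset.mem_filter.1 h').2

theorem rho_lt_iff {V : Finset ℕ} {u v : ℕ} (hu : u ∈ V) (hv : v ∈ V) :
    rho V u < rho V v ↔ u < v := by
  refine ⟨fun h => ?_, fun h => rho_lt hu h⟩
  by_contra hn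
  rcases Nat.lt_or_eq_of_le (not_lt.1 hn) with h1 | h1
  · exact absurd (rho_lt hv h1) (by omega)
  · rw [h1] at h
    exact lt_irrefl _ h

theorem rho_inj {V : Finset ℕ} {u v : ℕ} (hu : u ∈ V) (hv : v ∈ V) (h : rho V u = rho V v) :
    u = v := by
  rcases lt_trichotomy u v with h1 | h1 | h1
  · exact absurd (rho_lt hu h1) (by omega)
  · exact h1
  · exact absurd (rho_lt hv h1) (by omega)

/-- intervals of the grid -/
theorem cell_lt {L ρ ρ' x x' : ℕ} (h : ρ < ρ') (hx : x ∈ Ioc (ρ * L) (ρ * L + L))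
    (hx' : x' ∈ Ioc (ρ' * L) (ρ' * L + L)) : x < x' := by
  rw [Finset.mem_Ioc] at hx hx'
  have : ρ * L + L ≤ ρ' * L := by
    calc ρ * L + L = (ρ + 1) * L := by ring
      _ ≤ ρ' * L := Nat.mul_le_mul_right L h
  omega

theorem cells (h1 : S_el) (h2 : S_word) (h3 : S_sq) : S_cells := by
  classical
  intro r P hr hPC n K L hKL
  obtain ⟨el1, el2, el3, el4, el5, el6⟩ := h1
  obtain ⟨W, N, hM, hCl, hK⟩ := hPC K
  obtain ⟨N', hN', hc⟩ := Finset.exists_subset_card_eq hK
  have hM' : IsMatching r (N'.biUnion id) N' :=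
    ⟨fun e he => hM.1 e (hN' he), fun e he f hf => hM.2.1 e (hN' he) f (hN' hf), rfl⟩
  have hCl' : IsClique {P} N' := fun e he f hf hef => hCl e (hN' he) f (hN' hf) hef
  obtain ⟨x, ⟨hx1, hx2⟩, hxN⟩ := (h3 r {P} hr).1 K _ N' hM' hCl' hc
  set V := Finset.univ.biUnion x with hV
  have hVc : V.card ≤ r * K := by
    calc V.card ≤ ∑ a : Fin K, (x a).card := Finset.card_biUnion_le
      _ = r * K := by simp [hx1, mul_comm]
  have hmem : ∀ (a : Fin K) (i : ℕ), i < r → el (x a) i ∈ V := by
    intro a i hi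
    exact Finset.mem_biUnion.2 ⟨a, Finset.mem_univ _, el1 _ _ (by rw [hx1]; exact hi)⟩
  have hne : ∀ (a b : Fin K) (i i' : ℕ), i < r → i' < r → (i ≠ i' ∨ a ≠ b) →
      el (x a) i ≠ el (x b) i' := by
    intro a b i i' hi hi' h heq
    by_cases hab : a = b
    · subst hab
      rcases h with h | h
      · rcases lt_or_gt_of_ne h with h | h
        · have := el2 (x a) i i' h (by rw [hx1]; exact hi')
          omega
        · have := el2 (x a) i' i h (by rw [hx1]; exact hi)
          omega
      · exact h rfl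
    · have ha : el (x a) i ∈ x a := el1 _ _ (by rw [hx1]; exact hi)
      have hb : el (x b) i' ∈ x b := el1 _ _ (by rw [hx1]; exact hi')
      rw [heq] at ha
      rcases lt_or_gt_of_ne hab with h | h
      · exact Finset.disjoint_left.1 (hx2 a b h).1 ha hb
      · exact Finset.disjoint_left.1 (hx2 b a h).1 hb ha
  let y : ℕ → ℕ → ℕ := fun i j => if h : j < K then el (x ⟨j, h⟩) i else 0
  have hy : ∀ i j (h : j < K), y i j = el (x ⟨j, h⟩) i := fun i j h => dif_pos h
  have hyV : ∀ i < r, ∀ j < K, y i j ∈ V := by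
    intro i hi j hj
    rw [hy i j hj]
    exact hmem _ i hi
  have hyne : ∀ i < r, ∀ j < K, ∀ i' < r, ∀ j' < K, (i, j) ≠ (i', j') → y i j ≠ y i' j' := by
    intro i hi j hj i' hi' j' hj' h
    rw [hy i j hj, hy i' j' hj']
    apply hne _ _ _ _ hi hi'
    by_contra hcon
    push Not at hcon
    apply h
    have := congrArg Fin.val hcon.2
    exact Prod.ext hcon.1 this
  refine ⟨fun i j => Ioc (rho V (y i j) * L) (rho V (y i j) * L + L), ?_, ?_, ?_⟩
  · intro i hi j hj
    constructor
    · intro v hv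
      rw [Finset.mem_Ioc] at hv
      rw [Finset.mem_Icc]
      have h4 := rho_lt_card (hyV i hi j hj)
      have h5 : rho V (y i j) * L + L ≤ r * n := by
        calc rho V (y i j) * L + L = (rho V (y i j) + 1) * L := by ring
          _ ≤ (r * K) * L := Nat.mul_le_mul_right L (by omega)
          _ = r * (K * L) := by ring
          _ ≤ r * n := Nat.mul_le_mul_left r hKL
      omega
    · simp
  · intro i hi j hj i' hi' j' hj' h
    rw [Finset.disjoint_left]
    intro v hv hv'
    have hne' := hyne i hi j hj i' hi' j' hj' h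
    have hρ : rho V (y i j) ≠ rho V (y i' j') :=
      fun h => hne' (rho_inj (hyV i hi j hj) (hyV i' hi' j' hj') h)
    rcases lt_or_gt_of_ne hρ with h | h
    · exact lt_irrefl _ (cell_lt h hv hv')
    · exact lt_irrefl _ (cell_lt h hv' hv)
  · intro j j' hjj hj' e f he hf
    have hj : j < K := by omega
    -- elements of transversals
    have key : ∀ (j : ℕ) (hj : j < K) (e : Finset ℕ),
        Trans r (fun i j => Ioc (rho V (y i j) * L) (rho V (y i j) * L + L)) j e →
        ∀ i < r, el e i ∈ Ioc (rho V (y i j) * L) (rho V (y i j) * L + L) := by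
      intro j hj e he
      have hex : ∀ i, ∃ x, i < r → x ∈ e ∧ x ∈ Ioc (rho V (y i j) * L) (rho V (y i j) * L + L) := by
        intro i
        by_cases hi : i < r
        · obtain ⟨x, hx⟩ := he.2 i hi
          exact ⟨x, fun _ => Finset.mem_inter.1 hx⟩
        · exact ⟨0, fun h => absurd h hi⟩
      choose w hw using hex
      have hmono : ∀ i i', i < i' → i' < r → w i < w i' := by
        intro i i' hii hi'
        have hi : i < r := by omega
        refine cell_lt ?_ (hw i hi).2 (hw i' hi').2
        rw [rho_lt_iff (hyV i hi j hj) (hyV i' hi' j hj), hy i j hj, hy i' j hj]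
        exact el2 _ i i' hii (by rw [hx1]; exact hi')
      have := el5 e r w he.1 (fun i hi => (hw i hi).1) hmono
      intro i hi
      rw [this i hi]
      exact (hw i hi).2
    have ke := key j hj e he
    have kf := key j' hj' f hf
    have hcmp : ∀ i < r, ∀ i' < r,
        (el e i < el f i' ↔ el (x ⟨j, hj⟩) i < el (x ⟨j', hj'⟩) i') := by
      intro i hi i' hi'
      rw [← hy i j hj, ← hy i' j' hj', ← rho_lt_iff (hyV i hi j hj) (hyV i' hi' j' hj')]
      constructor
      · intro h
        by_contra hn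
        have hne' := hyne i hi j hj i' hi' j' hj' (fun h => by
          have := (Prod.ext_iff.1 h).2
          simp at this
          omega)
        have hρ : rho V (y i j) ≠ rho V (y i' j') :=
          fun h => hne' (rho_inj (hyV i hi j hj) (hyV i' hi' j' hj') h)
        have h5 : rho V (y i' j') < rho V (y i j) := by omega
        exact absurd (cell_lt h5 (kf i' hi') (ke i hi)) (by omega)
      · intro h
        exact cell_lt h (ke i hi) (kf i' hi')
    have hcard : ∀ a, (x a).card = r := hx1
    have hdisj : Disjoint e f := by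
      rw [Finset.disjoint_left]
      intro v hv hv'
      obtain ⟨i, hi, rfl⟩ := el3 e v hv
      obtain ⟨i', hi', h6⟩ := el3 f _ hv'
      rw [he.1] at hi
      rw [hf.1] at hi'
      have k1 := ke i hi
      have k2 := kf i' hi'
      rw [h6] at k2
      have hne' := hyne i hi j hj i' hi' j' hj' (fun h => by
          have := (Prod.ext_iff.1 h).2
          simp at this
          omega)
      have hρ : rho V (y i j) ≠ rho V (y i' j') :=
        fun h => hne' (rho_inj (hyV i hi j hj) (hyV i' hi' j' hj') h)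
      rcases lt_or_gt_of_ne hρ with h | h
      · exact lt_irrefl _ (cell_lt h k1 k2)
      · exact lt_irrefl _ (cell_lt h k2 k1)
    have hlt : (⟨j, hj⟩ : Fin K) < ⟨j', hj'⟩ := hjj
    obtain ⟨g1, g2, g3⟩ := hx2 ⟨j, hj⟩ ⟨j', hj'⟩ hlt
    have hword : word e f = word (x ⟨j, hj⟩) (x ⟨j', hj'⟩) :=
      (h2 r e f _ _ he.1 hf.1 (hx1 _) (hx1 _) hdisj g1).2 hcmp
    have h0 : el e 0 < el f 0 := (hcmp 0 (by omega) 0 (by omega)).2 g2
    have hmin : e.min ≤ f.min := (el6 e f (by rw [he.1]; omega) (by rw [hf.1]; omega)).2 h0.le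
    unfold pattern
    rw [if_pos hmin, hword]
    exact g3

end Pool.Agent.Q121.OM
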