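import Pool.Agent.Q157.OM.Stm

/-!
Project OM (MP_d24be6_pr): a vertex with many transversals.
-/

set_option autoImplicit false

namespace Pool.Agent.Q121.OM

open Finset Filter Topology Pool.Agent.Q157.OM

theorem deplete_j (r n K L T : ℕ) (c : ℕ → ℕ → Finset ℕ)
    (hc1 : ∀ i < r, ∀ j < K, c i j ⊆ Icc 1 (r * n) ∧ (c i j).card = L)
    (hc2 : ∀ i < r, ∀ j < K, ∀ i' < r, ∀ j' < K, (i, j) ≠ (i', j') →
      Disjoint (c i j) (c i' j'))
    (S : Finset ℕ) (hS : S ⊆ range K) (hST : 2 * (r * T) ≤ S.card * L)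
    (U : Finset ℕ) (hU : U ⊆ Icc 1 (r * n)) (hUc : (Icc 1 (r * n)).card < U.card + r * T) :
    ∃ j ∈ S, ∀ i < r, L < 2 * (c i j ∩ U).card := by
  by_contra hcon
  push Not at hcon
  choose! i hi using hcon
  have hsub : S.biUnion (fun j => c (i j) j \ U) ⊆ Icc 1 (r * n) \ U := by
    intro x hx
    obtain ⟨j, hj, hx⟩ := Finset.mem_biUnion.1 hx
    rw [Finset.mem_sdiff] at hx ⊢
    exact ⟨(hc1 (i j) (hi j hj).1 j (Finset.mem_range.1 (hS hj))).1 hx.1, hx.2⟩
  have hcard : (S.biUnion (fun j => c (i j) j \ U)).card = ∑ j ∈ S, (c (i j) j \ U).card := by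
    apply Finset.card_biUnion
    intro j hj j' hj' hne
    have := hc2 (i j) (hi j hj).1 j (Finset.mem_range.1 (hS hj)) (i j') (hi j' hj').1 j'
      (Finset.mem_range.1 (hS hj')) (fun h => hne (Prod.ext_iff.1 h).2)
    exact Finset.disjoint_of_subset_left Finset.sdiff_subset
      (Finset.disjoint_of_subset_right Finset.sdiff_subset this)
  have h1 : ∀ j ∈ S, L ≤ 2 * (c (i j) j \ U).card := by
    intro j hj
    have h2 := Finset.card_sdiff_add_card_inter (c (i j) j) U
    have hL := (hc1 (i j) (hi j hj).1 j (Finset.mem_range.1 (hS hj))).2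
    have h3 := (hi j hj).2
    omega
  have h2 : S.card * L ≤ 2 * ∑ j ∈ S, (c (i j) j \ U).card := by
    calc S.card * L = ∑ j ∈ S, L := by simp
      _ ≤ ∑ j ∈ S, 2 * (c (i j) j \ U).card := Finset.sum_le_sum h1
      _ = _ := by rw [Finset.mul_sum]
  have h3 := Finset.card_le_card hsub
  have h4 : (Icc 1 (r * n) \ U).card + U.card = (Icc 1 (r * n)).card :=
    Finset.card_sdiff_add_card_eq_card hU
  omega

open Classical in
/-- the number of the transversals through `v` -/
theorem count_trans (s : ℕ) (K : ℕ) (c : ℕ → ℕ → Finset ℕ)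
    (hc2 : ∀ i < s + 1, ∀ j < K, ∀ i' < s + 1, ∀ j' < K, (i, j) ≠ (i', j') →
      Disjoint (c i j) (c i' j')) (S : Finset ℕ) (j : ℕ) (hj : j ∈ S) (hjK : j < K)
    (U : Finset ℕ) (v : ℕ) (hv : v ∈ c 0 j ∩ U) :
    ∏ t : Fin s, (c (t + 1) j ∩ U).card ≤
      ((U.powersetCard (s + 1)).filter
        (fun e => v ∈ e ∧ e ∈ {e | ∃ j ∈ S, Trans (s + 1) c j e})).card := by
  rw [← Fintype.card_piFinset]
  have hdis : ∀ i < s + 1, ∀ i' < s + 1, ∀ x, x ∈ c i j → x ∈ c i' j → i = i' := by
    intro i hi i' hi' x hx hx'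
    by_contra hne
    exact Finset.disjoint_left.1 (hc2 i hi j hjK i' hi' j hjK
      (fun h => hne (Prod.ext_iff.1 h).1)) hx hx'
  have hy : ∀ y ∈ Fintype.piFinset (fun t : Fin s => c (t + 1) j ∩ U), ∀ t : Fin s,
      y t ∈ c (t + 1) j ∧ y t ∈ U := by
    intro y hy t
    exact Finset.mem_inter.1 (Fintype.mem_piFinset.1 hy t)
  have hv' := Finset.mem_inter.1 hv
  apply Finset.card_le_card_of_injOn (fun y : Fin s → ℕ => insert v (univ.image y))
  · intro y hy'
    have h1 := hy y hy'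
    have hinj : Function.Injective y := by
      intro t t' htt
      have := hdis (t + 1) (by omega) (t' + 1) (by omega) (y t) (h1 t).1 (htt ▸ (h1 t').1)
      exact Fin.ext (by omega)
    have hvn : v ∉ univ.image y := by
      intro hv2
      obtain ⟨t, -, ht⟩ := Finset.mem_image.1 hv2
      have := hdis 0 (by omega) (t + 1) (by omega) v hv'.1 (ht ▸ (h1 t).1)
      omega
    have hcard : (insert v (univ.image y)).card = s + 1 := by
      rw [Finset.card_insert_of_notMem hvn, Finset.card_image_of_injective _ hinj]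
      simp
    rw [Finset.mem_coe, Finset.mem_filter, Finset.mem_powersetCard]
    refine ⟨⟨?_, hcard⟩, Finset.mem_insert_self _ _, j, hj, hcard, ?_⟩
    · intro x hx
      rcases Finset.mem_insert.1 hx with rfl | hx
      · exact hv'.2
      · obtain ⟨t, -, rfl⟩ := Finset.mem_image.1 hx
        exact (h1 t).2
    · intro i hi
      rcases Nat.eq_zero_or_pos i with rfl | hi0
      · exact ⟨v, Finset.mem_inter.2 ⟨Finset.mem_insert_self _ _, hv'.1⟩⟩
      · refine ⟨y ⟨i - 1, by omega⟩, Finset.mem_inter.2 ⟨Finset.mem_insert_of_mem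
          (Finset.mem_image_of_mem _ (Finset.mem_univ _)), ?_⟩⟩
        have := (h1 ⟨i - 1, by omega⟩).1
        have e : i - 1 + 1 = i := by omega
        simp only [e] at this
        exact this
  · intro y hy1 y' hy2 hyy
    have h1 := hy y hy1
    have h2 := hy y' hy2
    have hyy' : insert v (univ.image y) = insert v (univ.image y') := hyy
    funext t
    have h3 : y t ∈ insert v (univ.image y') := by
      rw [← hyy']
      exact Finset.mem_insert_of_mem (Finset.mem_image_of_mem _ (Finset.mem_univ _))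
    rcases Finset.mem_insert.1 h3 with h3 | h3
    · have := hdis 0 (by omega) (t + 1) (by omega) (y t) (h3 ▸ hv'.1) (h1 t).1
      omega
    · obtain ⟨t', -, ht'⟩ := Finset.mem_image.1 h3
      have := hdis (t + 1) (by omega) (t' + 1) (by omega) (y t) (h1 t).1 (ht' ▸ (h2 t').1)
      have e : t = t' := Fin.ext (by omega)
      rw [e]
      rw [e] at ht'
      exact ht'.symm

theorem deplete : S_deplete := by
  classical
  intro r n K L T c hr hn hc1 hc2 S hS hST U hU hUc
  obtain ⟨j, hj, hjL⟩ := deplete_j r n K L T c hc1 hc2 S hS hST U hU hUc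
  obtain ⟨s, rfl⟩ : ∃ s, r = s + 1 := ⟨r - 1, by omega⟩
  have h0 : (c 0 j ∩ U).Nonempty := by
    rw [← Finset.card_pos]
    have := hjL 0 (by omega)
    omega
  obtain ⟨v, hv⟩ := h0
  refine ⟨v, (Finset.mem_inter.1 hv).2, ?_⟩
  have hcnt := count_trans s K c hc2 S j hj (Finset.mem_range.1 (hS hj)) U v hv
  have e : s + 1 - 1 = s := by omega
  rw [e]
  have hcnt' : (∏ t : Fin s, ((c (t + 1) j ∩ U).card : ℝ)) ≤
      (((U.powersetCard (s + 1)).filter
        (fun e => v ∈ e ∧ e ∈ {e | ∃ j ∈ S, Trans (s + 1) c j e})).card : ℝ) := by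
    exact_mod_cast hcnt
  refine le_trans ?_ (le_trans hcnt' (le_of_eq (by congr!)))
  have h1 : ((L : ℝ) / 2) ^ s ≤ ∏ t : Fin s, ((c (t + 1) j ∩ U).card : ℝ) := by
    calc ((L : ℝ) / 2) ^ s = ∏ t : Fin s, ((L : ℝ) / 2) := by
          rw [Finset.prod_const, Finset.card_univ, Fintype.card_fin]
      _ ≤ _ := by
        apply Finset.prod_le_prod
        · intro t _
          positivity
        · intro t _
          have := (hjL (t + 1) (by omega)).le
          have h : (L : ℝ) ≤ 2 * ((c (t + 1) j ∩ U).card : ℝ) := by exact_mod_cast this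
          linarith
  refine le_trans ?_ h1
  have hUle : U.card ≤ (s + 1) * n := by
    have := Finset.card_le_card hU
    simpa using this
  have h2 : ((U.card - 1).choose s : ℝ) ≤ (((s + 1 : ℕ) : ℝ) * n) ^ s := by
    have h3 : (U.card - 1).choose s ≤ (U.card - 1) ^ s := Nat.choose_le_pow _ _
    have h4 : (U.card - 1) ^ s ≤ ((s + 1) * n) ^ s := Nat.pow_le_pow_left (by omega) s
    exact_mod_cast h3.trans h4
  have hn' : (0 : ℝ) < n := by exact_mod_cast hn
  have hs' : (0 : ℝ) < ((s + 1 : ℕ) : ℝ) := by positivity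
  calc ((L : ℝ) / (2 * ((s + 1 : ℕ) : ℝ) * n)) ^ s * ((U.card - 1).choose s : ℝ)
      ≤ ((L : ℝ) / (2 * ((s + 1 : ℕ) : ℝ) * n)) ^ s * (((s + 1 : ℕ) : ℝ) * n) ^ s := by
        apply mul_le_mul_of_nonneg_left h2
        positivity
    _ = ((L : ℝ) / 2) ^ s := by
      rw [← mul_pow]
      congr 1
      field_simp

end Pool.Agent.Q121.OM
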