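import Pool.Agent.Q157.OM.Stm

/-!
Project OM (MP_d24be6_pr): the theorem of Marcus and Tardos (Füredi–Hajnal conjecture).
-/

set_option autoImplicit false

namespace Pool.Agent.Q121.OM

open Finset Filter Topology Pool.Agent.Q157.OM

theorem ias {m : ℕ} (τ : Equiv.Perm (Fin m)) (a : Fin m) : τ⁻¹ (τ a) = a := τ.symm_apply_apply a

theorem aia {m : ℕ} (τ : Equiv.Perm (Fin m)) (a : Fin m) : τ (τ⁻¹ a) = a := τ.apply_symm_apply a

/-- `M` contains the permutation matrix of `τ` -/
def Cont {m : ℕ} (τ : Equiv.Perm (Fin m)) (M : Finset (ℕ × ℕ)) : Prop :=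
  ∃ φ ψ : Fin m → ℕ, StrictMono φ ∧ StrictMono ψ ∧ ∀ a, (φ a, ψ (τ a)) ∈ M

theorem Cont.swap {m : ℕ} {τ : Equiv.Perm (Fin m)} {M : Finset (ℕ × ℕ)}
    (h : Cont τ⁻¹ (M.image Prod.swap)) : Cont τ M := by
  obtain ⟨φ, ψ, hφ, hψ, hM⟩ := h
  refine ⟨ψ, φ, hψ, hφ, fun a => ?_⟩
  have := hM (τ a)
  rw [ias] at this
  obtain ⟨p, hp, hpe⟩ := Finset.mem_image.1 this
  have h1 : p = (ψ a, φ (τ a)) := by
    have := congrArg Prod.swap hpe
    rw [Prod.swap_swap] at this
    exact this
  rw [← h1]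
  exact hp

/-- the entries in a block -/
def blk (s : ℕ) (M : Finset (ℕ × ℕ)) (B : ℕ × ℕ) : Finset (ℕ × ℕ) :=
  M.filter (fun p => p.1 / s = B.1 ∧ p.2 / s = B.2)

theorem mem_blk {s : ℕ} {M : Finset (ℕ × ℕ)} {B p : ℕ × ℕ} :
    p ∈ blk s M B ↔ p ∈ M ∧ p.1 / s = B.1 ∧ p.2 / s = B.2 := Finset.mem_filter

theorem strictMono_of_div {m : ℕ} {φ : Fin m → ℕ} {s : ℕ} {I : Fin m → ℕ} (hI : StrictMono I)
    (h : ∀ a, φ a / s = I a) : StrictMono φ := by
  intro a b hab
  by_contra hn
  have h1 := Nat.div_le_div_right (c := s) (not_lt.1 hn)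
  rw [h, h] at h1
  exact absurd (hI hab) (not_lt.2 h1)

/-- few wide blocks in a column of blocks -/
theorem wide_col {m : ℕ} (τ : Equiv.Perm (Fin m)) {M : Finset (ℕ × ℕ)} (hM : ¬ Cont τ M) (s : ℕ)
    (hs : 0 < s) (J : ℕ) (A : Finset ℕ) (hA : ∀ I ∈ A, m ≤ ((blk s M (I, J)).image Prod.snd).card) :
    A.card ≤ s.choose m * m := by
  classical
  by_contra hcon
  rw [not_le] at hcon
  apply hM
  have hex : ∀ I, ∃ Y : Finset ℕ, I ∈ A → Y ⊆ (blk s M (I, J)).image Prod.snd ∧ Y.card = m := by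
    intro I
    by_cases hI : I ∈ A
    · obtain ⟨Y, hY, hc⟩ := Finset.exists_subset_card_eq (hA I hI)
      exact ⟨Y, fun _ => ⟨hY, hc⟩⟩
    · exact ⟨∅, fun h => absurd h hI⟩
  choose Y hY using hex
  have hmaps : ∀ I ∈ A, Y I ∈ (Finset.Ico (J * s) (J * s + s)).powersetCard m := by
    intro I hI
    rw [Finset.mem_powersetCard]
    refine ⟨fun y hy => ?_, (hY I hI).2⟩
    obtain ⟨p, hp, rfl⟩ := Finset.mem_image.1 ((hY I hI).1 hy)
    have h1 := (mem_blk.1 hp).2.2
    simp only at h1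
    rw [Finset.mem_Ico]
    have h2 := Nat.div_add_mod p.2 s
    have h3 := Nat.mod_lt p.2 hs
    rw [h1] at h2
    rw [mul_comm J s]
    constructor <;> omega
  have hlt : ((Finset.Ico (J * s) (J * s + s)).powersetCard m).card * m < A.card := by
    rw [Finset.card_powersetCard]
    simpa using hcon
  obtain ⟨Y0, hY0, hf⟩ := Finset.exists_lt_card_fiber_of_mul_lt_card_of_maps_to hmaps hlt
  obtain ⟨S, hS, hSc⟩ := Finset.exists_subset_card_eq hf.le
  have hYc : Y0.card = m := (Finset.mem_powersetCard.1 hY0).2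
  let I : Fin m → ℕ := S.orderEmbOfFin hSc
  let ψ : Fin m → ℕ := Y0.orderEmbOfFin hYc
  have hIS : ∀ a, I a ∈ A ∧ Y (I a) = Y0 := by
    intro a
    have := hS (Finset.orderEmbOfFin_mem S hSc a)
    exact Finset.mem_filter.1 this
  have hx : ∀ a, ∃ x, (x, ψ (τ a)) ∈ M ∧ x / s = I a := by
    intro a
    have h1 : ψ (τ a) ∈ Y (I a) := by
      rw [(hIS a).2]
      exact Finset.orderEmbOfFin_mem Y0 hYc (τ a)
    obtain ⟨p, hp, hpe⟩ := Finset.mem_image.1 ((hY _ (hIS a).1).1 h1)
    obtain ⟨g1, g2, g3⟩ := mem_blk.1 hp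
    refine ⟨p.1, ?_, g2⟩
    rw [← hpe]
    exact g1
  choose φ hφ using hx
  exact ⟨φ, ψ, strictMono_of_div (S.orderEmbOfFin hSc).strictMono (fun a => (hφ a).2),
    (Y0.orderEmbOfFin hYc).strictMono, fun a => (hφ a).1⟩

/-- the set of wide blocks -/
theorem wide_card {m : ℕ} (τ : Equiv.Perm (Fin m)) {M : Finset (ℕ × ℕ)} (hM : ¬ Cont τ M) (s : ℕ)
    (hs : 0 < s) (n' : ℕ) (T : Finset (ℕ × ℕ)) (hT : ∀ B ∈ T, B.2 < n')
    (hA : ∀ B ∈ T, m ≤ ((blk s M B).image Prod.snd).card) :
    T.card ≤ s.choose m * m * n' := by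
  classical
  have := Finset.card_le_mul_card_image_of_maps_to (s := T) (t := range n') (f := Prod.snd)
    (fun B hB => Finset.mem_range.2 (hT B hB)) (s.choose m * m) (by
    intro J _
    have hinj : Set.InjOn Prod.fst ((T.filter (fun B => B.2 = J) : Finset (ℕ × ℕ)) : Set (ℕ × ℕ)) := by
      intro B hB B' hB' h
      have h1 := (Finset.mem_filter.1 hB).2
      have h2 := (Finset.mem_filter.1 hB').2
      exact Prod.ext h (h1.trans h2.symm)
    rw [← Finset.card_image_of_injOn hinj]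
    apply wide_col τ hM s hs J
    intro I hI
    obtain ⟨B, hB, rfl⟩ := Finset.mem_image.1 hI
    obtain ⟨h1, h2⟩ := Finset.mem_filter.1 hB
    have h3 : (B.1, J) = B := Prod.ext rfl h2.symm
    rw [h3]
    exact hA B h1)
  rwa [Finset.card_range] at this

theorem blk_swap (s : ℕ) (M : Finset (ℕ × ℕ)) (B : ℕ × ℕ) :
    (blk s (M.image Prod.swap) B.swap).image Prod.snd = (blk s M B).image Prod.fst := by
  ext x
  simp only [Finset.mem_image, mem_blk]
  constructor
  · rintro ⟨p, ⟨⟨q, hq, rfl⟩, h1, h2⟩, rfl⟩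
    exact ⟨q, ⟨hq, h2, h1⟩, rfl⟩
  · rintro ⟨q, ⟨hq, h1, h2⟩, rfl⟩
    exact ⟨q.swap, ⟨⟨q, hq, rfl⟩, h2, h1⟩, rfl⟩

/-- the set of tall blocks -/
theorem tall_card {m : ℕ} (τ : Equiv.Perm (Fin m)) {M : Finset (ℕ × ℕ)} (hM : ¬ Cont τ M) (s : ℕ)
    (hs : 0 < s) (n' : ℕ) (T : Finset (ℕ × ℕ)) (hT : ∀ B ∈ T, B.1 < n')
    (hA : ∀ B ∈ T, m ≤ ((blk s M B).image Prod.fst).card) :
    T.card ≤ s.choose m * m * n' := by
  classical
  rw [← Finset.card_image_of_injective T Prod.swap_injective]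
  apply wide_card τ⁻¹ (M := M.image Prod.swap) (fun h => hM h.swap) s hs n'
  · intro B hB
    obtain ⟨B', hB', rfl⟩ := Finset.mem_image.1 hB
    exact hT B' hB'
  · intro B hB
    obtain ⟨B', hB', rfl⟩ := Finset.mem_image.1 hB
    rw [blk_swap]
    exact hA B' hB'

/-- the blocks -/
theorem cont_blocks {m : ℕ} (τ : Equiv.Perm (Fin m)) {M : Finset (ℕ × ℕ)} (s : ℕ)
    (h : Cont τ (M.image (fun p => (p.1 / s, p.2 / s)))) : Cont τ M := by
  obtain ⟨φ, ψ, hφ, hψ, hM⟩ := h
  have hx : ∀ a, ∃ p ∈ M, p.1 / s = φ a ∧ p.2 / s = ψ (τ a) := by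
    intro a
    obtain ⟨p, hp, hpe⟩ := Finset.mem_image.1 (hM a)
    exact ⟨p, hp, congrArg Prod.fst hpe, congrArg Prod.snd hpe⟩
  choose p hp using hx
  refine ⟨fun a => (p a).1, fun b => (p (τ⁻¹ b)).2, strictMono_of_div hφ (fun a => (hp a).2.1),
    strictMono_of_div (s := s) hψ (fun b => ?_), fun a => ?_⟩
  · have := (hp (τ⁻¹ b)).2.2
    rwa [aia] at this
  · simp only [ias]
    exact (hp a).1

/-- the number of the entries of a block -/
theorem blk_card (m s : ℕ) (hs : 0 < s) (M : Finset (ℕ × ℕ)) (B : ℕ × ℕ) :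
    (blk s M B).card ≤ (m - 1) * (m - 1) +
      (if m ≤ ((blk s M B).image Prod.snd).card then s * s else 0) +
      (if m ≤ ((blk s M B).image Prod.fst).card then s * s else 0) := by
  classical
  have hprod : (blk s M B).card ≤
      ((blk s M B).image Prod.fst).card * ((blk s M B).image Prod.snd).card := by
    rw [← Finset.card_product]
    apply Finset.card_le_card
    intro p hp
    exact Finset.mem_product.2 ⟨Finset.mem_image_of_mem _ hp, Finset.mem_image_of_mem _ hp⟩
  have hall : (blk s M B).card ≤ s * s := by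
    have : blk s M B ⊆ Finset.Ico (B.1 * s) (B.1 * s + s) ×ˢ Finset.Ico (B.2 * s) (B.2 * s + s) := by
      intro p hp
      obtain ⟨-, h1, h2⟩ := mem_blk.1 hp
      have h3 := Nat.div_add_mod p.1 s
      have h4 := Nat.mod_lt p.1 hs
      have h5 := Nat.div_add_mod p.2 s
      have h6 := Nat.mod_lt p.2 hs
      rw [h1] at h3
      rw [h2] at h5
      rw [Finset.mem_product, Finset.mem_Ico, Finset.mem_Ico, mul_comm B.1 s, mul_comm B.2 s]
      refine ⟨⟨?_, ?_⟩, ?_, ?_⟩ <;> omega
    have := Finset.card_le_card this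
    simpa using this
  by_cases h1 : m ≤ ((blk s M B).image Prod.snd).card
  · rw [if_pos h1]
    omega
  · by_cases h2 : m ≤ ((blk s M B).image Prod.fst).card
    · rw [if_pos h2]
      omega
    · rw [if_neg h1, if_neg h2]
      have : ((blk s M B).image Prod.fst).card * ((blk s M B).image Prod.snd).card ≤
          (m - 1) * (m - 1) := Nat.mul_le_mul (by omega) (by omega)
      omega

theorem mt_step {m : ℕ} (τ : Equiv.Perm (Fin m)) (s : ℕ) (hs : 0 < s) (n : ℕ)
    (M : Finset (ℕ × ℕ)) (hMn : M ⊆ range n ×ˢ range n) (hM : ¬ Cont τ M) :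
    M.card ≤ (m - 1) * (m - 1) * (M.image (fun p => (p.1 / s, p.2 / s))).card +
      2 * (s * s) * (s.choose m * m) * (n / s + 1) := by
  classical
  set BM := M.image (fun p => (p.1 / s, p.2 / s)) with hBM
  have h1 : M.card = ∑ B ∈ BM, (blk s M B).card := by
    rw [Finset.card_eq_sum_card_fiberwise (f := fun p : ℕ × ℕ => (p.1 / s, p.2 / s)) (t := BM)
      (fun p hp => Finset.mem_image_of_mem _ hp)]
    refine Finset.sum_congr rfl fun B _ => ?_
    congr 1
    ext p
    rw [mem_blk, Finset.mem_filter]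
    constructor
    · rintro ⟨h, he⟩
      exact ⟨h, congrArg Prod.fst he, congrArg Prod.snd he⟩
    · rintro ⟨h, h1, h2⟩
      exact ⟨h, Prod.ext h1 h2⟩
  have hlt : ∀ B ∈ BM, B.1 < n / s + 1 ∧ B.2 < n / s + 1 := by
    intro B hB
    obtain ⟨p, hp, rfl⟩ := Finset.mem_image.1 hB
    have hp' := Finset.mem_product.1 (hMn hp)
    rw [Finset.mem_range, Finset.mem_range] at hp'
    exact ⟨Nat.lt_succ_of_le (Nat.div_le_div_right hp'.1.le),
      Nat.lt_succ_of_le (Nat.div_le_div_right hp'.2.le)⟩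
  have h2 : ∑ B ∈ BM, (blk s M B).card ≤ ∑ B ∈ BM, ((m - 1) * (m - 1) +
      (if m ≤ ((blk s M B).image Prod.snd).card then s * s else 0) +
      (if m ≤ ((blk s M B).image Prod.fst).card then s * s else 0)) :=
    Finset.sum_le_sum fun B _ => blk_card m s hs M B
  rw [Finset.sum_add_distrib, Finset.sum_add_distrib, Finset.sum_const, smul_eq_mul,
    ← Finset.sum_filter, ← Finset.sum_filter, Finset.sum_const, Finset.sum_const, smul_eq_mul,
    smul_eq_mul] at h2
  have h3 := wide_card τ hM s hs (n / s + 1)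
    (BM.filter (fun B => m ≤ ((blk s M B).image Prod.snd).card))
    (fun B hB => (hlt B (Finset.mem_filter.1 hB).1).2) (fun B hB => (Finset.mem_filter.1 hB).2)
  have h4 := tall_card τ hM s hs (n / s + 1)
    (BM.filter (fun B => m ≤ ((blk s M B).image Prod.fst).card))
    (fun B hB => (hlt B (Finset.mem_filter.1 hB).1).1) (fun B hB => (Finset.mem_filter.1 hB).2)
  have h5 := Nat.mul_le_mul_right (s * s) h3
  have h6 := Nat.mul_le_mul_right (s * s) h4
  calc M.card ≤ BM.card * ((m - 1) * (m - 1)) + s.choose m * m * (n / s + 1) * (s * s) +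
        s.choose m * m * (n / s + 1) * (s * s) := by
        rw [h1]
        refine h2.trans ?_
        gcongr
    _ = _ := by ring

theorem marcus_tardos {m : ℕ} (τ : Equiv.Perm (Fin m)) : ∃ c : ℕ, ∀ (n : ℕ) (M : Finset (ℕ × ℕ)),
    M ⊆ range n ×ˢ range n → ¬ Cont τ M → M.card ≤ c * n := by
  classical
  set s : ℕ := (m - 1) * (m - 1) + 2 with hs
  have hs2 : 2 ≤ s := by omega
  set D : ℕ := 2 * (s * s) * (s.choose m * m) with hD
  set c : ℕ := 2 * D + 2 * (s * s) with hc
  refine ⟨c, fun n => ?_⟩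
  induction n using Nat.strong_induction_on with
  | _ n ih =>
    intro M hMn hM
    by_cases hn : n < 2 * (s * s)
    · have h1 := Finset.card_le_card hMn
      rw [Finset.card_product, Finset.card_range] at h1
      calc M.card ≤ n * n := h1
        _ ≤ c * n := Nat.mul_le_mul_right n (by omega)
    · rw [not_lt] at hn
      set n' := n / s + 1 with hn'
      have hss : 2 * s ≤ s * s := Nat.mul_le_mul_right s hs2
      have hdiv : 2 * s ≤ n / s := by
        rw [Nat.le_div_iff_mul_le (by omega)]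
        calc 2 * s * s = 2 * (s * s) := by ring
          _ ≤ n := hn
      have hhalf : n / s ≤ n / 2 := Nat.div_le_div_left hs2 (by norm_num)
      have hlt : n' < n := by omega
      have hsn : s * n' ≤ n + s := by
        have := Nat.mul_div_le n s
        calc s * n' = s * (n / s) + s := by rw [hn']; ring
          _ ≤ n + s := by omega
      have hstep := mt_step τ s (by omega) n M hMn hM
      rw [← hn', ← hD] at hstep
      have hBM : (M.image (fun p => (p.1 / s, p.2 / s))).card ≤ c * n' := by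
        apply ih n' hlt
        · intro B hB
          obtain ⟨p, hp, rfl⟩ := Finset.mem_image.1 hB
          have hp' := Finset.mem_product.1 (hMn hp)
          rw [Finset.mem_range, Finset.mem_range] at hp'
          rw [Finset.mem_product, Finset.mem_range, Finset.mem_range]
          exact ⟨Nat.lt_succ_of_le (Nat.div_le_div_right hp'.1.le),
            Nat.lt_succ_of_le (Nat.div_le_div_right hp'.2.le)⟩
        · exact fun h => hM (cont_blocks τ s h)
      have h1 : M.card ≤ (m - 1) * (m - 1) * (c * n') + D * n' :=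
        hstep.trans (Nat.add_le_add_right (Nat.mul_le_mul_left _ hBM) _)
      have h2 : (m - 1) * (m - 1) * (c * n') + 2 * (c * n') = s * n' * c := by
        rw [hs]; ring
      have h3 : s * n' * c ≤ (n + s) * c := Nat.mul_le_mul_right c hsn
      have h4 : 2 * (D * n') ≤ c * n' := by
        calc 2 * (D * n') = (2 * D) * n' := by ring
          _ ≤ c * n' := Nat.mul_le_mul_right n' (by omega)
      have h5 : 2 * (s * c) ≤ c * n' := by
        calc 2 * (s * c) = c * (2 * s) := by ring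
          _ ≤ c * n' := Nat.mul_le_mul_left c (by omega)
      have h6 : (n + s) * c = c * n + s * c := by ring
      omega

theorem FH : S_FH := by
  classical
  intro m τ
  obtain ⟨c, hc⟩ := marcus_tardos τ
  refine ⟨c, fun n M hM => ?_⟩
  have hinj : Function.Injective (fun p : Fin n × Fin n => ((p.1 : ℕ), (p.2 : ℕ))) := by
    intro p q h
    have h1 := congrArg Prod.fst h
    have h2 := congrArg Prod.snd h
    exact Prod.ext (Fin.ext h1) (Fin.ext h2)
  rw [← Finset.card_image_of_injective M hinj]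
  apply hc
  · intro p hp
    obtain ⟨q, hq, rfl⟩ := Finset.mem_image.1 hp
    rw [Finset.mem_product, Finset.mem_range, Finset.mem_range]
    exact ⟨q.1.2, q.2.2⟩
  · rintro ⟨φ, ψ, hφ, hψ, h⟩
    apply hM
    have h1 : ∀ a, ∃ q ∈ M, (q.1 : ℕ) = φ a ∧ (q.2 : ℕ) = ψ (τ a) := by
      intro a
      obtain ⟨q, hq, hqe⟩ := Finset.mem_image.1 (h a)
      exact ⟨q, hq, congrArg Prod.fst hqe, congrArg Prod.snd hqe⟩
    choose q hq using h1
    refine ⟨OrderEmbedding.ofStrictMono (fun a => (q a).1) ?_,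
      OrderEmbedding.ofStrictMono (fun b => (q (τ⁻¹ b)).2) ?_, fun a => ?_⟩
    · intro a b hab
      rw [Fin.lt_def, (hq a).2.1, (hq b).2.1]
      exact hφ hab
    · intro a b hab
      rw [Fin.lt_def, (hq _).2.2, (hq _).2.2, aia, aia]
      exact hψ hab
    · simp only [OrderEmbedding.coe_ofStrictMono, ias]
      exact (hq a).1

end Pool.Agent.Q121.OM
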