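import Pool.Agent.Q121.OM.Prob

/-!
Project OM (MP_d24be6_pr): few good places are unlikely.
-/

set_option autoImplicit false

namespace Pool.Agent.Q121.OM

open Finset Filter Topology Pool.Agent.Q157.OM

theorem pattern_comm (e f : Finset ℕ) (he : e.Nonempty) (hd : Disjoint e f) :
    pattern e f = pattern f e := by
  unfold pattern
  by_cases h : e.min ≤ f.min
  · by_cases h' : f.min ≤ e.min
    · exfalso
      have heq : e.min = f.min := le_antisymm h h'
      obtain ⟨m, hm⟩ := Finset.min_of_nonempty he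
      have h1 : m ∈ e := Finset.mem_of_min hm
      have h2 : m ∈ f := Finset.mem_of_min (heq ▸ hm)
      exact (Finset.disjoint_left.mp hd h1) h2
    · rw [if_pos h, if_neg h']
  · have h' : f.min ≤ e.min := (not_le.mp h).le
    rw [if_neg h, if_pos h']

theorem trans_ne (r : ℕ) (hr : 1 ≤ r) (K : ℕ) (c : ℕ → ℕ → Finset ℕ)
    (hc2 : ∀ i < r, ∀ j < K, ∀ i' < r, ∀ j' < K, (i, j) ≠ (i', j') →
      Disjoint (c i j) (c i' j')) (j j' : ℕ) (hj : j < K) (hj' : j' < K) (hne : j ≠ j')
    (e : Finset ℕ) (h1 : Trans r c j e) (h2 : Trans r c j' e) : False := by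
  classical
  have hex : ∀ i, ∃ x, i < r → x ∈ e ∩ c i j := by
    intro i
    by_cases hi : i < r
    · obtain ⟨x, hx⟩ := h1.2 i hi
      exact ⟨x, fun _ => hx⟩
    · exact ⟨0, fun h => absurd h hi⟩
  choose y hy using hex
  have hinj : Set.InjOn y (range r : Finset ℕ) := by
    intro a ha b hb hab
    by_contra hab'
    have ha' : a < r := by simpa using ha
    have hb' : b < r := by simpa using hb
    have h3 := (Finset.mem_inter.mp (hy a ha')).2
    have h4 := (Finset.mem_inter.mp (hy b hb')).2
    rw [← hab] at h4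
    exact Finset.disjoint_left.mp (hc2 a ha' j hj b hb' j hj (by
      intro h; exact hab' (by simpa using h))) h3 h4
  have hcard : ((range r).image y).card = r := by
    rw [Finset.card_image_of_injOn hinj, Finset.card_range]
  have hsub : (range r).image y ⊆ e := by
    intro x hx
    obtain ⟨i, hi, rfl⟩ := Finset.mem_image.mp hx
    exact (Finset.mem_inter.mp (hy i (Finset.mem_range.mp hi))).1
  have heq : (range r).image y = e := Finset.eq_of_subset_of_card_le hsub (by rw [hcard, h1.1])
  obtain ⟨x, hx⟩ := h2.2 0 (by omega)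
  obtain ⟨hx1, hx2⟩ := Finset.mem_inter.mp hx
  rw [← heq] at hx1
  obtain ⟨i, hi, rfl⟩ := Finset.mem_image.mp hx1
  have hi' := Finset.mem_range.mp hi
  have h3 := (Finset.mem_inter.mp (hy i hi')).2
  exact Finset.disjoint_left.mp (hc2 i hi' j hj 0 (by omega) j' hj' (by
    intro h
    exact hne (by simpa using (Prod.ext_iff.mp h).2))) h3 hx2

open Classical in
theorem good_le (r : ℕ) (hr : 1 ≤ r) (P : List Letter) (Ps : Set (List Letter)) (hPP : P ∈ Ps)
    (K : ℕ) (c : ℕ → ℕ → Finset ℕ)
    (hc2 : ∀ i < r, ∀ j < K, ∀ i' < r, ∀ j' < K, (i, j) ≠ (i', j') →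
      Disjoint (c i j) (c i' j'))
    (hc3 : ∀ j j' : ℕ, j < j' → j' < K → ∀ e f : Finset ℕ, Trans r c j e → Trans r c j' f →
        pattern e f = P)
    (W : Finset ℕ) (M : Finset (Finset ℕ)) (hM : IsMatching r W M) :
    ((range K).filter (fun j => ∃ e ∈ M, Trans r c j e)).card ≤ z Ps M := by
  set G := (range K).filter (fun j => ∃ e ∈ M, Trans r c j e) with hG
  have hex : ∀ j, ∃ e, j ∈ G → e ∈ M ∧ Trans r c j e := by
    intro j
    by_cases hj : j ∈ G
    · obtain ⟨e, he⟩ := (Finset.mem_filter.mp hj).2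
      exact ⟨e, fun _ => he⟩
    · exact ⟨∅, fun h => absurd h hj⟩
  choose e he using hex
  have hGK : ∀ j ∈ G, j < K := fun j hj => Finset.mem_range.mp (Finset.mem_filter.mp hj).1
  have hinj : Set.InjOn e (G : Set ℕ) := by
    intro a ha b hb hab
    by_contra hne
    have ha' : a ∈ G := ha
    have hb' : b ∈ G := hb
    refine trans_ne r hr K c hc2 a b (hGK a ha') (hGK b hb') hne (e a) (he a ha').2 ?_
    rw [hab]
    exact (he b hb').2
  have hcard : (G.image e).card = G.card := Finset.card_image_of_injOn hinj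
  rw [← hcard]
  unfold z
  refine Finset.le_sup (f := Finset.card) ?_
  rw [Finset.mem_filter, Finset.mem_powerset]
  refine ⟨?_, ?_⟩
  · intro f hf
    obtain ⟨j, hj, rfl⟩ := Finset.mem_image.mp hf
    exact (he j hj).1
  · intro f hf g hg hfg
    obtain ⟨j, hj, rfl⟩ := Finset.mem_image.mp hf
    obtain ⟨j', hj', rfl⟩ := Finset.mem_image.mp hg
    have hjj : j ≠ j' := fun h => hfg (by rw [h])
    rcases lt_or_gt_of_ne hjj with h | h
    · rw [hc3 j j' h (hGK j' hj') _ _ (he j hj).2 (he j' hj').2]
      exact hPP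
    · have hd : Disjoint (e j) (e j') := hM.2.1 _ (he j hj).1 _ (he j' hj').1 hfg
      have hn : (e j).Nonempty := by
        rw [← Finset.card_pos, hM.1 _ (he j hj).1]
        omega
      rw [pattern_comm _ _ hn hd, hc3 j' j h (hGK j hj) _ _ (he j' hj').2 (he j hj).2]
      exact hPP

theorem few (h1 : S_rec) (h2 : S_num) (h3 : S_avoid) (h4 : S_cells) (h5 : S_deplete) :
    S_few := by
  classical
  intro r P Ps hr hPC hPP n K L T hn hKL hT
  have hr' : (1 : ℝ) ≤ r := by exact_mod_cast hr
  have hn' : (1 : ℝ) ≤ n := by exact_mod_cast hn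
  set p : ℝ := ((L : ℝ) / (2 * r * n)) ^ (r - 1) with hp
  have hp0 : 0 ≤ p := by positivity
  rcases Nat.eq_zero_or_pos K with rfl | hK
  · have hT0 : T = 0 := by
      rw [Nat.zero_mul] at hT
      have h : r * T = 0 := by omega
      rcases Nat.mul_eq_zero.mp h with h | h
      · omega
      · exact h
    subst hT0
    simp [prob]
  have hLn : L ≤ n := by
    calc L = 1 * L := by ring
      _ ≤ K * L := Nat.mul_le_mul_right L hK
      _ ≤ n := hKL
  have hp1 : p ≤ 1 := by
    apply pow_le_one₀ (by positivity)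
    rw [div_le_one (by positivity)]
    have : (L : ℝ) ≤ n := by exact_mod_cast hLn
    nlinarith
  obtain ⟨c, hc1, hc2, hc3⟩ := h4 r P hr hPC n K L hKL
  set W := Icc 1 (r * n) with hW
  have hWc : W.card = r * n := by simp [hW]
  rw [prob_eq' h1 r n hr, MS_card h2 r n hr]
  have hBpos : (0 : ℝ) < (Nat.uniformBell n r : ℝ) := by exact_mod_cast (h2 r hr).2.1 n
  rw [div_le_iff₀ hBpos]
  let F : Finset ℕ → Set (Finset ℕ) := fun S => {e | ∃ j ∈ S, Trans r c j e}
  have hav : ∀ S ⊆ range K, K ≤ 2 * S.card →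
      (av r (F S) W : ℝ) ≤ (1 - p) ^ T * (Nat.uniformBell n r : ℝ) := by
    intro S hS hSK
    apply h3 r p hr hp0 hp1 T n (F S) W hWc
    intro U hU hUc
    have h6 : 2 * (r * T) ≤ S.card * L := by
      have : K * L ≤ 2 * S.card * L := Nat.mul_le_mul_right L hSK
      nlinarith
    obtain ⟨v, hv, hh⟩ := h5 r n K L T c hr hn hc1 hc2 S hS h6 U hU hUc
    exact ⟨v, hv, by convert hh⟩
  have hcov : (MS r W).filter (fun M => 2 * z Ps M < K) ⊆
      ((range K).powerset.filter (fun S => K ≤ 2 * S.card)).biUnion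
        (fun S => (MS r W).filter (fun M => ∀ e ∈ M, e ∉ F S)) := by
    intro M hM
    obtain ⟨hM1, hM2⟩ := Finset.mem_filter.mp hM
    have hMM : IsMatching r W M := ((h1 r hr).1 W M).mp hM1
    have hg : ((range K).filter (fun j => ∃ e ∈ M, Trans r c j e)).card ≤ z Ps M := by
      have := good_le r hr P Ps hPP K c hc2 hc3 W M hMM
      convert this
    rw [Finset.mem_biUnion]
    refine ⟨(range K).filter (fun j => ¬ ∃ e ∈ M, Trans r c j e), ?_, ?_⟩
    · rw [Finset.mem_filter, Finset.mem_powerset]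
      refine ⟨Finset.filter_subset _ _, ?_⟩
      have := Finset.card_filter_add_card_filter_not (s := range K)
        (fun j => ∃ e ∈ M, Trans r c j e)
      rw [Finset.card_range] at this
      omega
    · rw [Finset.mem_filter]
      refine ⟨hM1, ?_⟩
      intro e he hF
      obtain ⟨j, hj, hjt⟩ := hF
      exact (Finset.mem_filter.mp hj).2 ⟨e, he, hjt⟩
  have hle := (Finset.card_le_card hcov).trans Finset.card_biUnion_le
  have hle' : (((MS r W).filter (fun M => 2 * z Ps M < K)).card : ℝ) ≤
      ∑ S ∈ (range K).powerset.filter (fun S => K ≤ 2 * S.card), (av r (F S) W : ℝ) := by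
    have : ((MS r W).filter (fun M => 2 * z Ps M < K)).card ≤
      ∑ S ∈ (range K).powerset.filter (fun S => K ≤ 2 * S.card), av r (F S) W := by
      refine hle.trans (le_of_eq ?_)
      apply Finset.sum_congr rfl
      intro S _
      unfold av
      congr!
    exact_mod_cast this
  refine hle'.trans ?_
  have hsum : ∑ S ∈ (range K).powerset.filter (fun S => K ≤ 2 * S.card), (av r (F S) W : ℝ) ≤
      ∑ S ∈ (range K).powerset.filter (fun S => K ≤ 2 * S.card),
        (1 - p) ^ T * (Nat.uniformBell n r : ℝ) := by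
    apply Finset.sum_le_sum
    intro S hS
    obtain ⟨hS1, hS2⟩ := Finset.mem_filter.mp hS
    exact hav S (Finset.mem_powerset.mp hS1) hS2
  refine hsum.trans ?_
  rw [Finset.sum_const, nsmul_eq_mul, mul_assoc]
  apply mul_le_mul_of_nonneg_right
  · have : ((range K).powerset.filter (fun S => K ≤ 2 * S.card)).card ≤ 2 ^ K := by
      refine (Finset.card_filter_le _ _).trans ?_
      rw [Finset.card_powerset, Finset.card_range]
    exact_mod_cast this
  · have : 0 ≤ 1 - p := by linarith
    positivity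

end Pool.Agent.Q121.OM
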