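import Pool.Agent.Q121.OM.Prob

/-!
Project OM (MP_d24be6_pr): the final statement.
-/

set_option autoImplicit false

namespace Pool.Agent.Q121.OM

open Finset Filter Topology Pool.Agent.Q157.OM

theorem final (h1 : S_rec) (h2 : S_num) (h3 : S_up) (h4 : S_low) : S_final := by
  intro r Ps hr hP hH hC
  obtain ⟨P, hPP, hPC⟩ := hC
  obtain ⟨C, hC0, hC⟩ := h3 r Ps hr hP hH
  obtain ⟨c, hc0, hc⟩ := h4 r P Ps hr hPC hPP
  refine ⟨c, C, hc0, hC0, ?_⟩
  have hlow : Tendsto (fun n : ℕ =>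
      1 - prob r n (fun M => ¬ (c * (n : ℝ) ^ (1 / r : ℝ) ≤ (z Ps M : ℝ))) -
        prob r n (fun M => ¬ ((z Ps M : ℝ) ≤ C * (n : ℝ) ^ (1 / r : ℝ)))) atTop (𝓝 1) := by
    have := (tendsto_const_nhds (x := (1 : ℝ)) (f := (atTop : Filter ℕ))).sub hc |>.sub hC
    simpa using this
  refine tendsto_of_tendsto_of_tendsto_of_le_of_le hlow
    (tendsto_const_nhds (x := (1 : ℝ)) (f := (atTop : Filter ℕ))) ?_ ?_
  · intro n
    exact prob_and h1 h2 r n hr _ _
  · intro n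
    exact prob_le_one h1 r n hr _

end Pool.Agent.Q121.OM
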