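import Pool.Agent.Q121.OM.Prob

/-!
Project OM (MP_d24be6_pr): first moment and the estimate of the quotient.
-/

set_option autoImplicit false

namespace Pool.Agent.Q121.OM

open Finset Filter Topology Pool.Agent.Q157.OM

theorem exists_clique (Ps : Set (List Letter)) (M : Finset (Finset ℕ)) (k : ℕ) (h : k ≤ z Ps M) :
    ∃ N ⊆ M, N.card = k ∧ IsClique Ps N := by
  classical
  have hne : (M.powerset.filter (fun N => IsClique Ps N)).Nonempty := by
    refine ⟨∅, ?_⟩
    rw [Finset.mem_filter]
    refine ⟨Finset.empty_mem_powerset M, ?_⟩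
    intro e he
    simp at he
  obtain ⟨N0, hN0, hz⟩ := Finset.exists_mem_eq_sup _ hne Finset.card
  rw [Finset.mem_filter, Finset.mem_powerset] at hN0
  have hk : k ≤ N0.card := by
    rw [← hz]
    unfold z at h
    convert h
  obtain ⟨N, hN, hc⟩ := Finset.exists_subset_card_eq hk
  exact ⟨N, hN.trans hN0.1, hc, fun e he f hf hef => hN0.2 e (hN he) f (hN hf) hef⟩

theorem first (h1 : S_rec) (h2 : S_num) (h3 : S_place) : S_first := by
  classical
  intro r k n Ps hr hkn
  rw [card_eq h1 r hr]
  set W := Icc 1 (r * n) with hW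
  have hWc : W.card = r * n := by simp [hW]
  let p : Finset (Finset ℕ) → Prop := fun N => N.card = k ∧ N.biUnion id ⊆ W ∧
    IsMatching r (N.biUnion id) N ∧ IsClique Ps N
  set Q := (W.powerset.powerset).filter p with hQ
  have hQc : Q.card = Nat.card {N : Finset (Finset ℕ) // p N} := by
    rw [Nat.card_congr (Equiv.subtypeEquivRight (q := fun N => N ∈ Q) (fun N => by
      rw [hQ, Finset.mem_filter, Finset.mem_powerset]
      constructor
      · intro h
        refine ⟨fun e he => ?_, h⟩
        rw [Finset.mem_powerset]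
        exact (Finset.subset_biUnion_of_mem id he).trans h.2.1
      · exact fun h => h.2))]
    rw [Nat.card_eq_fintype_card, Fintype.card_coe]
  have hcov : (MS r W).filter (fun M => k ≤ z Ps M) ⊆
      Q.biUnion (fun N => (MS r W).filter (fun M => N ⊆ M)) := by
    intro M hM
    obtain ⟨hM1, hM2⟩ := Finset.mem_filter.1 hM
    have hMM : IsMatching r W M := ((h1 r hr).1 W M).1 hM1
    obtain ⟨N, hN, hc, hcl⟩ := exists_clique Ps M k hM2
    have hpN : p N := by
      refine ⟨hc, ?_, ⟨fun e he => hMM.1 e (hN he), fun e he f hf => hMM.2.1 e (hN he) f (hN hf), rfl⟩, hcl⟩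
      rw [← hMM.2.2]
      exact Finset.biUnion_subset_biUnion_of_subset_left _ hN
    rw [Finset.mem_biUnion]
    refine ⟨N, ?_, Finset.mem_filter.2 ⟨hM1, hN⟩⟩
    rw [hQ, Finset.mem_filter, Finset.mem_powerset]
    refine ⟨fun e he => ?_, hpN⟩
    rw [Finset.mem_powerset]
    exact (Finset.subset_biUnion_of_mem id he).trans hpN.2.1
  have hle := (Finset.card_le_card hcov).trans Finset.card_biUnion_le
  have hterm : ∀ N ∈ Q, ((MS r W).filter (fun M => N ⊆ M)).card = Nat.uniformBell (n - k) r := by
    intro N hN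
    have hpN := (Finset.mem_filter.1 hN).2
    have := (h2 r hr).2.2.2 n k W N hWc hpN.1 hpN.2.2.1 hpN.2.1
    rw [← this]
  rw [Finset.sum_congr rfl hterm, Finset.sum_const, smul_eq_mul, hQc] at hle
  have hpl := h3 r k (r * n) Ps hr
  refine le_trans (le_of_eq (by congr!)) (hle.trans ?_)
  exact Nat.mul_le_mul_right _ hpl

theorem quot_nat (r k n : ℕ) (hr : 1 ≤ r) (hkn : k ≤ n) :
    (r * n).choose (r * k) * Nat.uniformBell (n - k) r * (r * k).factorial =
      Nat.uniformBell n r * r.factorial ^ k * n.descFactorial k := by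
  have hr0 : r ≠ 0 := by omega
  have e1 := Nat.uniformBell_mul_eq n hr0
  have e2 := Nat.uniformBell_mul_eq (n - k) hr0
  have e3 := Nat.choose_mul_factorial_mul_factorial (Nat.mul_le_mul_left r hkn)
  have e4 := Nat.factorial_mul_descFactorial hkn
  have e5 : r * n - r * k = (n - k) * r := by
    rw [← Nat.mul_sub, mul_comm]
  have e6 : n * r = r * n := mul_comm _ _
  rw [e5] at e3
  rw [e6] at e1
  have e7 : r.factorial ^ n = r.factorial ^ k * r.factorial ^ (n - k) := by
    rw [← pow_add]
    congr 1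
    omega
  have hpos : 0 < r.factorial ^ (n - k) * (n - k).factorial := by positivity
  apply Nat.eq_of_mul_eq_mul_right hpos
  calc (r * n).choose (r * k) * Nat.uniformBell (n - k) r * (r * k).factorial *
        (r.factorial ^ (n - k) * (n - k).factorial)
      = (r * n).choose (r * k) * (r * k).factorial *
        (Nat.uniformBell (n - k) r * r.factorial ^ (n - k) * (n - k).factorial) := by ring
    _ = (r * n).factorial := by rw [e2, e3]
    _ = Nat.uniformBell n r * r.factorial ^ n * n.factorial := e1.symm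
    _ = Nat.uniformBell n r * (r.factorial ^ k * r.factorial ^ (n - k)) *
        ((n - k).factorial * n.descFactorial k) := by rw [e7, e4]
    _ = _ := by ring

theorem quot : S_quot := by
  intro r k n hr hk hkn
  have h := quot_nat r k n hr hkn
  have h' : ((r * n).choose (r * k) : ℝ) * (Nat.uniformBell (n - k) r : ℝ) * ((r * k).factorial : ℝ) =
      (Nat.uniformBell n r : ℝ) * (r.factorial : ℝ) ^ k * (n.descFactorial k : ℝ) := by
    exact_mod_cast h
  have hk0 : (0 : ℝ) < k := by exact_mod_cast hk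
  have hf : (0 : ℝ) < ((r * k).factorial : ℝ) := by positivity
  have h1 : (n.descFactorial k : ℝ) ≤ (n : ℝ) ^ k := by
    exact_mod_cast Nat.descFactorial_le_pow n k
  have h2 : ((k : ℝ) ^ r) ^ k ≤ ((r * k).factorial : ℝ) * (Real.exp r) ^ k := by
    have h3 := Real.pow_div_factorial_le_exp ((r * k : ℕ) : ℝ) (Nat.cast_nonneg _) (r * k)
    rw [div_le_iff₀ hf] at h3
    calc ((k : ℝ) ^ r) ^ k = (k : ℝ) ^ (r * k) := by rw [pow_mul]
      _ ≤ ((r * k : ℕ) : ℝ) ^ (r * k) := by
          apply pow_le_pow_left₀ hk0.le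
          have : k ≤ r * k := Nat.le_mul_of_pos_left k hr
          exact_mod_cast this
      _ ≤ Real.exp ((r * k : ℕ) : ℝ) * ((r * k).factorial : ℝ) := h3
      _ = ((r * k).factorial : ℝ) * (Real.exp r) ^ k := by
          rw [← Real.exp_nat_mul]
          push_cast
          rw [mul_comm (k : ℝ) (r : ℝ), mul_comm]
  rw [div_pow, div_mul_eq_mul_div, le_div_iff₀ (by positivity)]
  have h5 : ((r * n).choose (r * k) : ℝ) * (Nat.uniformBell (n - k) r : ℝ) * ((k : ℝ) ^ r) ^ k ≤
      ((r * n).choose (r * k) : ℝ) * (Nat.uniformBell (n - k) r : ℝ) *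
        (((r * k).factorial : ℝ) * (Real.exp r) ^ k) := by gcongr
  refine h5.trans ?_
  rw [← mul_assoc, h']
  calc (Nat.uniformBell n r : ℝ) * (r.factorial : ℝ) ^ k * (n.descFactorial k : ℝ) * (Real.exp r) ^ k
      ≤ (Nat.uniformBell n r : ℝ) * (r.factorial : ℝ) ^ k * (n : ℝ) ^ k * (Real.exp r) ^ k := by
        gcongr
    _ = _ := by rw [mul_pow, mul_pow]; ring

end Pool.Agent.Q121.OM
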