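import Pool.Agent.Q157.OM.Stm

/-!
Project OM (MP_d24be6_pr): the lower bound, `S_low` from `S_few`.
-/

set_option autoImplicit false

namespace Pool.Agent.Q121.OM

open Finset Filter Topology Pool.Agent.Q157.OM

theorem isMatching_finite (r : ℕ) (W : Finset ℕ) :
    {M : Finset (Finset ℕ) | IsMatching r W M}.Finite := by
  apply (W.powerset.powerset.finite_toSet).subset
  intro M hM
  simp only [Finset.mem_coe, Finset.mem_powerset]
  intro e he
  rw [Finset.mem_powerset, ← hM.2.2]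
  exact Finset.subset_biUnion_of_mem id he

theorem prob_mono (r n : ℕ) (E F : Finset (Finset ℕ) → Prop) (h : ∀ M, E M → F M) :
    prob r n E ≤ prob r n F := by
  unfold prob
  apply div_le_div_of_nonneg_right _ (Nat.cast_nonneg _)
  have hfin : {M : Finset (Finset ℕ) | IsMatching r (Icc 1 (r * n)) M ∧ F M}.Finite :=
    (isMatching_finite r (Icc 1 (r * n))).subset (fun M hM => hM.1)
  have := Nat.card_mono (s := {M : Finset (Finset ℕ) | IsMatching r (Icc 1 (r * n)) M ∧ E M})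
    hfin (fun M hM => ⟨hM.1, h M hM.2⟩)
  exact_mod_cast this

theorem prob_nonneg' (r n : ℕ) (E : Finset (Finset ℕ) → Prop) : 0 ≤ prob r n E := by
  unfold prob
  positivity

/-- the numerical estimate -/
theorem num_est (r n K : ℕ) (c a : ℝ) (hr : 1 ≤ r) (hn : 16 * r ≤ n) (hc : c = 1 / (16 * r))
    (ha : a ^ r = n) (ha1 : 1 ≤ a) (hK1 : 1 ≤ K) (hK : (K : ℝ) ≤ c * a) :
    ∃ L T : ℕ, 1 ≤ n ∧ K * L ≤ n ∧ 4 * (r * T) ≤ K * L ∧
      2 ^ K * (1 - ((L : ℝ) / (2 * r * n)) ^ (r - 1)) ^ T ≤ (2 * Real.exp (-1)) ^ K := by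
  have hr' : (1 : ℝ) ≤ r := by exact_mod_cast hr
  have hn1 : 1 ≤ n := by omega
  have hn' : (0 : ℝ) < n := by exact_mod_cast (by omega : 0 < n)
  have hn16 : (16 : ℝ) * r ≤ n := by exact_mod_cast hn
  have hc0 : 0 < c := by rw [hc]; positivity
  have hc2 : c ≤ 1 / 16 := by
    rw [hc, div_le_div_iff₀ (by positivity) (by norm_num)]
    linarith
  have hK0 : (0 : ℝ) < K := by exact_mod_cast hK1
  have han : a ≤ n := by
    rw [← ha]
    exact le_self_pow₀ ha1 (by omega)
  have hKn : (K : ℝ) ≤ n / 16 := by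
    calc (K : ℝ) ≤ c * a := hK
      _ ≤ 1 / 16 * n := by
        apply mul_le_mul hc2 han (by linarith) (by norm_num)
      _ = n / 16 := by ring
  refine ⟨n / K, K * (n / K) / (4 * r), hn1, Nat.mul_div_le n K, ?_, ?_⟩
  · have := Nat.mul_div_le (K * (n / K)) (4 * r)
    calc 4 * (r * (K * (n / K) / (4 * r))) = 4 * r * (K * (n / K) / (4 * r)) := by ring
      _ ≤ _ := this
  set L := n / K with hL
  set T := K * L / (4 * r) with hT
  have h1 : (n : ℝ) / 2 ≤ K * L := by
    have : n < K * L + K := by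
      have := Nat.lt_mul_div_succ n (by omega : 0 < K)
      calc n < K * (n / K + 1) := this
        _ = _ := by rw [hL]; ring
    have h : (n : ℝ) ≤ K * L + K := by exact_mod_cast this.le
    linarith
  have h2 : (n : ℝ) / (16 * r) ≤ T := by
    have : K * L < 4 * r * (T + 1) := Nat.lt_mul_div_succ (K * L) (by omega : 0 < 4 * r)
    have h : (K * L : ℝ) ≤ 4 * r * (T + 1) := by exact_mod_cast this.le
    rw [div_le_iff₀ (by positivity)]
    nlinarith
  have h3 : 1 / (4 * r * K : ℝ) ≤ L / (2 * r * n) := by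
    rw [div_le_div_iff₀ (by positivity) (by positivity)]
    nlinarith
  have h4 : (1 / (4 * r * K : ℝ)) ^ (r - 1) ≤ (L / (2 * r * n : ℝ)) ^ (r - 1) :=
    pow_le_pow_left₀ (by positivity) h3 _
  set p := (L / (2 * r * n : ℝ)) ^ (r - 1) with hp
  have hp1 : p ≤ 1 := by
    apply pow_le_one₀ (by positivity)
    rw [div_le_one (by positivity)]
    have : (L : ℝ) ≤ n := by exact_mod_cast Nat.div_le_self n K
    nlinarith
  have hp0 : 0 ≤ p := by positivity
  -- p T ≥ K
  have h5 : (K : ℝ) ≤ p * T := by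
    have hKr : (16 * r : ℝ) ^ r * (K : ℝ) ^ r ≤ n := by
      calc (16 * r : ℝ) ^ r * (K : ℝ) ^ r ≤ (16 * r : ℝ) ^ r * (c * a) ^ r := by
            gcongr
        _ = (16 * r * c) ^ r * a ^ r := by rw [← mul_pow, ← mul_pow]; ring
        _ = n := by
          rw [ha, hc]
          have : (16 * r * (1 / (16 * r)) : ℝ) = 1 := by field_simp
          rw [this]; simp
    have h6 : (K : ℝ) ≤ (1 / (4 * r * K : ℝ)) ^ (r - 1) * (n / (16 * r)) := by
      rw [one_div, inv_pow, inv_mul_eq_div, div_div, le_div_iff₀ (by positivity)]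
      obtain ⟨s, rfl⟩ : ∃ s, r = s + 1 := ⟨r - 1, by omega⟩
      have e : s + 1 - 1 = s := by omega
      rw [e]
      refine le_trans ?_ hKr
      set R : ℝ := ((s + 1 : ℕ) : ℝ) with hR
      have hR0 : 0 < R := by linarith
      calc (K : ℝ) * (16 * R * (4 * R * K) ^ s) = (16 * R) * (4 * R) ^ s * K ^ (s + 1) := by
            rw [mul_pow]; ring
        _ ≤ (16 * R) * (16 * R) ^ s * K ^ (s + 1) := by
            gcongr
            norm_num
        _ = (16 * R) ^ (s + 1) * K ^ (s + 1) := by ring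
    refine h6.trans ?_
    exact mul_le_mul h4 h2 (by positivity) hp0
  calc 2 ^ K * (1 - p) ^ T ≤ 2 ^ K * (Real.exp (-p)) ^ T := by
        apply mul_le_mul_of_nonneg_left _ (by positivity)
        apply pow_le_pow_left₀ (by linarith)
        exact Real.one_sub_le_exp_neg p
    _ = 2 ^ K * Real.exp (-(p * T)) := by
        rw [← Real.exp_nat_mul]; ring_nf
    _ ≤ 2 ^ K * Real.exp (-K) := by
        gcongr
    _ = (2 * Real.exp (-1)) ^ K := by
        rw [mul_pow, ← Real.exp_nat_mul]; ring_nf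

theorem low (h : S_few) : S_low := by
  intro r P Ps hr hPC hPP
  have hr' : (1 : ℝ) ≤ r := by exact_mod_cast hr
  set c : ℝ := 1 / (16 * r) with hc
  have hc0 : 0 < c := by positivity
  refine ⟨c / 4, by positivity, ?_⟩
  have hrpos : (0 : ℝ) < 1 / r := by positivity
  -- a n → ∞
  have ha : Tendsto (fun n : ℕ => (n : ℝ) ^ (1 / r : ℝ)) atTop atTop :=
    (tendsto_rpow_atTop hrpos).comp tendsto_natCast_atTop_atTop
  have hca : Tendsto (fun n : ℕ => c * (n : ℝ) ^ (1 / r : ℝ)) atTop atTop :=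
    ha.const_mul_atTop hc0
  have hK : Tendsto (fun n : ℕ => ⌊c * (n : ℝ) ^ (1 / r : ℝ)⌋₊) atTop atTop :=
    tendsto_nat_floor_atTop.comp hca
  have he : 2 * Real.exp (-1) < 1 := by
    have h1 : (2 : ℝ) < Real.exp 1 := by
      have := Real.exp_one_gt_d9
      linarith
    rw [Real.exp_neg, ← div_eq_mul_inv, div_lt_one (by positivity)]
    exact h1
  have hlim : Tendsto (fun n : ℕ => (2 * Real.exp (-1)) ^ ⌊c * (n : ℝ) ^ (1 / r : ℝ)⌋₊)
      atTop (𝓝 0) :=
    (tendsto_pow_atTop_nhds_zero_of_lt_one (by positivity) he).comp hK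
  refine tendsto_of_tendsto_of_tendsto_of_le_of_le' tendsto_const_nhds hlim
    (Eventually.of_forall (fun n => prob_nonneg' r n _)) ?_
  filter_upwards [eventually_ge_atTop (16 * r), hca.eventually_ge_atTop 2,
    ha.eventually_ge_atTop 1] with n hn hn2 hn1
  set a : ℝ := (n : ℝ) ^ (1 / r : ℝ) with haa
  have hfl : (⌊c * a⌋₊ : ℝ) ≤ c * a := Nat.floor_le (by linarith)
  have hfl2 : c * a < ⌊c * a⌋₊ + 1 := Nat.lt_floor_add_one _
  have hK1 : 1 ≤ ⌊c * a⌋₊ := by
    rw [Nat.one_le_floor_iff]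
    linarith
  have har : a ^ r = n := by
    rw [haa, ← Real.rpow_natCast, ← Real.rpow_mul (Nat.cast_nonneg n)]
    have : (1 / r * r : ℝ) = 1 := by field_simp
    rw [this, Real.rpow_one]
  obtain ⟨L, T, h1n, hKL, hT, hb⟩ := num_est r n ⌊c * a⌋₊ c a hr hn hc har hn1 hK1 hfl
  refine le_trans (prob_mono r n _ _ ?_) ((h r P Ps hr hPC hPP n ⌊c * a⌋₊ L T h1n hKL hT).trans hb)
  intro M hM
  rw [not_le] at hM
  have : (2 * z Ps M : ℝ) < (⌊c * a⌋₊ : ℝ) := by
    have : (2 * z Ps M : ℝ) < c * a / 2 := by linarith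
    linarith
  exact_mod_cast this

end Pool.Agent.Q121.OM
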