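import Pool.Agent.Q157.OM.Stm

/-!
Project OM (MP_d24be6_pr): counting form of `prob`.
-/

set_option autoImplicit false

namespace Pool.Agent.Q121.OM

open Finset Filter Topology Pool.Agent.Q157.OM

open Classical in
theorem card_eq (h1 : S_rec) (r : ℕ) (hr : 1 ≤ r) (W : Finset ℕ)
    (E : Finset (Finset ℕ) → Prop) :
    Nat.card {M : Finset (Finset ℕ) // IsMatching r W M ∧ E M} = ((MS r W).filter E).card := by
  have h := (h1 r hr).1 W
  rw [Nat.card_congr (Equiv.subtypeEquivRight (q := fun M => M ∈ (MS r W).filter E)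
    (fun M => by rw [Finset.mem_filter, h M]))]
  rw [Nat.card_eq_fintype_card, Fintype.card_coe]

theorem card_eq' (h1 : S_rec) (r : ℕ) (hr : 1 ≤ r) (W : Finset ℕ) :
    Nat.card {M : Finset (Finset ℕ) // IsMatching r W M} = (MS r W).card := by
  have h := (h1 r hr).1 W
  rw [Nat.card_congr (Equiv.subtypeEquivRight (q := fun M => M ∈ MS r W)
    (fun M => by rw [h M]))]
  rw [Nat.card_eq_fintype_card, Fintype.card_coe]

open Classical in
theorem prob_eq (h1 : S_rec) (r n : ℕ) (hr : 1 ≤ r) (E : Finset (Finset ℕ) → Prop) :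
    prob r n E = (((MS r (Icc 1 (r * n))).filter E).card : ℝ) / (MS r (Icc 1 (r * n))).card := by
  unfold prob
  rw [card_eq h1 r hr, card_eq' h1 r hr]

theorem MS_pos (h2 : S_num) (r n : ℕ) (hr : 1 ≤ r) : 0 < (MS r (Icc 1 (r * n))).card := by
  rw [(h2 r hr).1 n _ (by simp)]
  exact (h2 r hr).2.1 n

theorem MS_card (h2 : S_num) (r n : ℕ) (hr : 1 ≤ r) :
    (MS r (Icc 1 (r * n))).card = Nat.uniformBell n r :=
  (h2 r hr).1 n _ (by simp)

theorem prob_nonneg (r n : ℕ) (E : Finset (Finset ℕ) → Prop) : 0 ≤ prob r n E := by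
  unfold prob
  positivity

theorem prob_le_one (h1 : S_rec) (r n : ℕ) (hr : 1 ≤ r) (E : Finset (Finset ℕ) → Prop) :
    prob r n E ≤ 1 := by
  classical
  rw [prob_eq h1 r n hr]
  apply div_le_one_of_le₀ _ (by positivity)
  exact_mod_cast Finset.card_filter_le _ _

theorem prob_eq' (h1 : S_rec) (r n : ℕ) (hr : 1 ≤ r) (E : Finset (Finset ℕ) → Prop)
    [DecidablePred E] :
    prob r n E = (((MS r (Icc 1 (r * n))).filter E).card : ℝ) / (MS r (Icc 1 (r * n))).card := by
  rw [prob_eq h1 r n hr]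
  congr!

theorem prob_and (h1 : S_rec) (h2 : S_num) (r n : ℕ) (hr : 1 ≤ r)
    (E F : Finset (Finset ℕ) → Prop) :
    1 - prob r n (fun M => ¬ E M) - prob r n (fun M => ¬ F M) ≤ prob r n (fun M => E M ∧ F M) := by
  classical
  rw [prob_eq' h1 r n hr, prob_eq' h1 r n hr, prob_eq' h1 r n hr]
  set s := MS r (Icc 1 (r * n)) with hs
  have hpos : (0 : ℝ) < (s.card : ℝ) := by exact_mod_cast MS_pos h2 r n hr
  have hsub : s.card ≤ (s.filter (fun M => ¬ E M)).card + (s.filter (fun M => ¬ F M)).card +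
      (s.filter (fun M => E M ∧ F M)).card := by
    have : s ⊆ s.filter (fun M => ¬ E M) ∪ s.filter (fun M => ¬ F M) ∪
        s.filter (fun M => E M ∧ F M) := by
      intro M hM
      simp only [Finset.mem_union, Finset.mem_filter, hM, true_and]
      tauto
    refine (Finset.card_le_card this).trans ?_
    refine (Finset.card_union_le _ _).trans ?_
    exact Nat.add_le_add_right (Finset.card_union_le _ _) _
  have hsub' : (s.card : ℝ) ≤ (s.filter (fun M => ¬ E M)).card +
      (s.filter (fun M => ¬ F M)).card + (s.filter (fun M => E M ∧ F M)).card := by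
    exact_mod_cast hsub
  rw [sub_le_iff_le_add, sub_le_iff_le_add, ← add_div, ← add_div, le_div_iff₀ hpos]
  linarith

end Pool.Agent.Q121.OM
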