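import Pool.Agent.Q121.OM.Prob
import Pool.Agent.Q121.OM.Low

/-!
Project OM (MP_d24be6_pr): the upper bound.
-/

set_option autoImplicit false

namespace Pool.Agent.Q121.OM

open Finset Filter Topology Pool.Agent.Q157.OM

theorem z_le_card (Ps : Set (List Letter)) (M : Finset (Finset ℕ)) : z Ps M ≤ M.card := by
  classical
  unfold z
  refine Finset.sup_le fun N hN => ?_
  rw [Finset.mem_filter, Finset.mem_powerset] at hN
  exact Finset.card_le_card hN.1

theorem up_le (h1 : S_rec) (h2 : S_num) (h4 : S_first) (h5 : S_quot) (r : ℕ) (Ps : Set (List Letter))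
    (hr : 1 ≤ r) (D : ℕ) (hD : ∀ k : ℕ,
      Nat.card {N : Finset (Finset ℕ) // IsMatching r (Icc 1 (r * k)) N ∧ IsClique Ps N} ≤ D ^ k)
    (n k : ℕ) (hk : 1 ≤ k) (hn : 1 ≤ n)
    (hkr : 2 * ((D : ℝ) * ((r.factorial : ℝ) * Real.exp r) * n) ≤ (k : ℝ) ^ r) :
    prob r n (fun M => k ≤ z Ps M) ≤ (1 / 2) ^ k := by
  by_cases hkn : k ≤ n
  · unfold prob
    rw [card_eq' h1 r hr, MS_card h2 r n hr]
    have hB : (0 : ℝ) < (Nat.uniformBell n r : ℝ) := by exact_mod_cast (h2 r hr).2.1 n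
    rw [div_le_iff₀ hB]
    have h6 := h4 r k n Ps hr hkn
    have h7 := h5 r k n hr hk hkn
    have hk0 : (0 : ℝ) < (k : ℝ) ^ r := by
      have : (0 : ℝ) < k := by exact_mod_cast hk
      positivity
    calc (Nat.card {M : Finset (Finset ℕ) // IsMatching r (Icc 1 (r * n)) M ∧ k ≤ z Ps M} : ℝ)
        ≤ ((r * n).choose (r * k) : ℝ) *
          (Nat.card {N : Finset (Finset ℕ) // IsMatching r (Icc 1 (r * k)) N ∧ IsClique Ps N} : ℝ) *
          (Nat.uniformBell (n - k) r : ℝ) := by exact_mod_cast h6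
      _ ≤ ((r * n).choose (r * k) : ℝ) * (D : ℝ) ^ k * (Nat.uniformBell (n - k) r : ℝ) := by
          have : (Nat.card {N : Finset (Finset ℕ) // IsMatching r (Icc 1 (r * k)) N ∧ IsClique Ps N} : ℝ) ≤
              (D : ℝ) ^ k := by exact_mod_cast hD k
          gcongr
      _ = (D : ℝ) ^ k * (((r * n).choose (r * k) : ℝ) * (Nat.uniformBell (n - k) r : ℝ)) := by ring
      _ ≤ (D : ℝ) ^ k * ((((r.factorial : ℝ) * Real.exp r * n) / (k : ℝ) ^ r) ^ k *
            (Nat.uniformBell n r : ℝ)) := by gcongr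
      _ = ((D : ℝ) * (((r.factorial : ℝ) * Real.exp r * n) / (k : ℝ) ^ r)) ^ k *
            (Nat.uniformBell n r : ℝ) := by rw [mul_pow]; ring
      _ ≤ (1 / 2) ^ k * (Nat.uniformBell n r : ℝ) := by
          gcongr
          rw [← mul_div_assoc, div_le_div_iff₀ hk0 (by norm_num)]
          linarith
  · have h0 : prob r n (fun M => k ≤ z Ps M) = 0 := by
      unfold prob
      have hE : IsEmpty {M : Finset (Finset ℕ) // IsMatching r (Icc 1 (r * n)) M ∧ k ≤ z Ps M} := by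
        constructor
        rintro ⟨M, hM, hz⟩
        have h3 := (h2 r hr).2.2.1 n (Icc 1 (r * n)) M (by simp) hM
        have h4 := z_le_card Ps M
        omega
      rw [Nat.card_of_isEmpty]
      simp
    rw [h0]
    positivity

theorem up (h1 : S_rec) (h2 : S_num) (h3 : S_expo) (h4 : S_first) (h5 : S_quot) : S_up := by
  intro r Ps hr hP hH
  obtain ⟨D, hD1, hD⟩ := h3 r Ps hr hP hH
  have hr0 : (0 : ℝ) < r := by exact_mod_cast hr
  set B : ℝ := 2 * ((D : ℝ) * ((r.factorial : ℝ) * Real.exp r)) with hB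
  have hB0 : 0 ≤ B := by positivity
  set C : ℝ := B ^ (1 / r : ℝ) + 1 with hC
  have hBr : 0 ≤ B ^ (1 / r : ℝ) := Real.rpow_nonneg hB0 _
  have hC1 : 1 ≤ C := by linarith
  have hCr : B ≤ C ^ r := by
    calc B = (B ^ (1 / r : ℝ)) ^ r := by
          rw [← Real.rpow_natCast, ← Real.rpow_mul hB0]
          have : (1 / r * r : ℝ) = 1 := by field_simp
          rw [this, Real.rpow_one]
      _ ≤ C ^ r := by gcongr; linarith
  refine ⟨C, by linarith, ?_⟩
  have hrpos : (0 : ℝ) < 1 / r := by positivity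
  have ha : Tendsto (fun n : ℕ => (n : ℝ) ^ (1 / r : ℝ)) atTop atTop :=
    (tendsto_rpow_atTop hrpos).comp tendsto_natCast_atTop_atTop
  have hca : Tendsto (fun n : ℕ => C * (n : ℝ) ^ (1 / r : ℝ)) atTop atTop :=
    ha.const_mul_atTop (by linarith)
  have hK : Tendsto (fun n : ℕ => ⌊C * (n : ℝ) ^ (1 / r : ℝ)⌋₊ + 1) atTop atTop :=
    (tendsto_add_atTop_nat 1).comp (tendsto_nat_floor_atTop.comp hca)
  have hlim : Tendsto (fun n : ℕ => (1 / 2 : ℝ) ^ (⌊C * (n : ℝ) ^ (1 / r : ℝ)⌋₊ + 1))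
      atTop (𝓝 0) :=
    (tendsto_pow_atTop_nhds_zero_of_lt_one (by norm_num) (by norm_num)).comp hK
  refine tendsto_of_tendsto_of_tendsto_of_le_of_le' tendsto_const_nhds hlim
    (Eventually.of_forall (fun n => prob_nonneg' r n _)) ?_
  filter_upwards [eventually_ge_atTop 1] with n hn
  set a : ℝ := (n : ℝ) ^ (1 / r : ℝ) with haa
  have ha0 : 0 ≤ a := Real.rpow_nonneg (Nat.cast_nonneg n) _
  have har : a ^ r = n := by
    rw [haa, ← Real.rpow_natCast, ← Real.rpow_mul (Nat.cast_nonneg n)]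
    have : (1 / r * r : ℝ) = 1 := by field_simp
    rw [this, Real.rpow_one]
  have hlt : C * a < ((⌊C * a⌋₊ + 1 : ℕ) : ℝ) := by
    push_cast
    exact Nat.lt_floor_add_one _
  refine le_trans (prob_mono r n _ (fun M => ⌊C * a⌋₊ + 1 ≤ z Ps M) ?_)
    (up_le h1 h2 h4 h5 r Ps hr D hD n _ (by omega) hn ?_)
  · intro M hM
    rw [not_le] at hM
    have h6 : ⌊C * a⌋₊ < z Ps M := (Nat.floor_lt (by positivity)).2 hM
    exact h6
  · calc 2 * ((D : ℝ) * ((r.factorial : ℝ) * Real.exp r) * n) = B * n := by rw [hB]; ring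
      _ ≤ C ^ r * a ^ r := by
        rw [har]
        gcongr
      _ = (C * a) ^ r := by rw [mul_pow]
      _ ≤ _ := by
        have : 0 ≤ C * a := by positivity
        gcongr

end Pool.Agent.Q121.OM
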